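import Mathlib

/-!
# Egyptian fractions: definitions

`sols k q` is the set of all `k`-element sets of positive integers whose reciprocals have sum `q`,
and `F k` counts the `k`-element sets with reciprocal sum `1`.
-/

namespace Pool.Agent.Lib.MP_9dd88f_nt

/-- The `k`-element sets of positive integers with `∑ 1/n = q`. -/
def sols (k : ℕ) (q : ℚ) : Set (Finset ℕ) :=
  {S | S.card = k ∧ (∀ n ∈ S, 0 < n) ∧ ∑ n ∈ S, (1 : ℚ) / n = q}

/-- The number of representations of `1` as a sum of `k` distinct unit fractions. -/
noncomputable def F (k : ℕ) : ℕ := (sols k 1).ncard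

end Pool.Agent.Lib.MP_9dd88f_nt
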