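import Mathlib
import Pool.Agent.Lib.MP_9dd88f_nt.Defs

/-!
# Finiteness
-/

namespace Pool.Agent.Lib.MP_9dd88f_nt

theorem sols_finite (j : ℕ) (q : ℚ) : (sols j q).Finite := by
  induction j generalizing q with
  | zero =>
    apply (Set.finite_singleton (∅ : Finset ℕ)).subset
    rintro S ⟨h, -, -⟩
    exact Finset.card_eq_zero.mp h
  | succ j ih =>
    have hfin : (⋃ n ∈ Finset.Icc 1 ⌈((j + 1 : ℕ) : ℚ) / q⌉₊,
        (insert n) '' sols j (q - 1 / n)).Finite :=
      Set.Finite.biUnion (Finset.finite_toSet _) fun n _ => (ih _).image _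
    apply hfin.subset
    rintro S ⟨hc, hpos, hsum⟩
    have hne : S.Nonempty := by
      rw [← Finset.card_pos, hc]
      omega
    have hq : 0 < q := by
      rw [← hsum]
      apply Finset.sum_pos _ hne
      intro n hn
      have := hpos n hn
      positivity
    set n := S.min' hne with hn
    have hnS : n ∈ S := Finset.min'_mem _ _
    have hnpos := hpos n hnS
    have hle : q ≤ ((j + 1 : ℕ) : ℚ) / n := by
      rw [← hsum]
      calc ∑ m ∈ S, (1 : ℚ) / m ≤ ∑ m ∈ S, (1 : ℚ) / n := by
            apply Finset.sum_le_sum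
            intro m hm
            apply one_div_le_one_div_of_le (by exact_mod_cast hnpos)
            exact_mod_cast Finset.min'_le S m hm
        _ = ((j + 1 : ℕ) : ℚ) / n := by
            rw [Finset.sum_const, hc, nsmul_eq_mul]
            ring
    have hnq : (n : ℚ) ≤ ((j + 1 : ℕ) : ℚ) / q := by
      have hn' : (0 : ℚ) < n := by exact_mod_cast hnpos
      rw [le_div_iff₀ hq]
      rw [le_div_iff₀ hn'] at hle
      linarith
    rw [Set.mem_iUnion₂]
    refine ⟨n, ?_, S.erase n, ?_, Finset.insert_erase hnS⟩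
    · rw [Finset.mem_Icc]
      refine ⟨hnpos, ?_⟩
      have := hnq.trans (Nat.le_ceil _)
      exact_mod_cast this
    · refine ⟨?_, fun m hm => hpos m (Finset.mem_of_mem_erase hm), ?_⟩
      · rw [Finset.card_erase_of_mem hnS, hc]
        omega
      · rw [← hsum, ← Finset.add_sum_erase S _ hnS]
        ring

end Pool.Agent.Lib.MP_9dd88f_nt
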