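import Mathlib
import Pool.Agent.Lib.MP_9dd88f_nt.Rec

/-!
# Short chains ending in highly divisible denominators
-/

namespace Pool.Agent.Lib.MP_9dd88f_nt

/-- `1 = ∑_{n ∈ S} 1 / n + 1 / M` with `t` terms `n < M` in `S`. -/
def Chain (t M : ℕ) : Prop :=
  ∃ S : Finset ℕ, S.card = t ∧ (∀ n ∈ S, 0 < n ∧ n < M) ∧
    ∑ n ∈ S, (1 : ℚ) / n + 1 / M = 1

private theorem chain_step {t M M' : ℕ} (h : Chain t M) (R : Finset ℕ)
    (hR : ∀ x ∈ R, M < x ∧ x < M') (hM : M < M')
    (hs : (1 : ℚ) / M = ∑ x ∈ R, (1 : ℚ) / x + 1 / M') : Chain (t + R.card) M' := by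
  classical
  obtain ⟨S, hS, hlt, hsum⟩ := h
  have hdisj : Disjoint S R := by
    rw [Finset.disjoint_left]
    intro x hx hx'
    exact lt_asymm (hlt x hx).2 (hR x hx').1
  refine ⟨S ∪ R, ?_, ?_, ?_⟩
  · rw [Finset.card_union_of_disjoint hdisj, hS]
  · intro n hn
    rcases Finset.mem_union.mp hn with hn | hn
    · exact ⟨(hlt n hn).1, (hlt n hn).2.trans hM⟩
    · exact ⟨(Nat.zero_le _).trans_lt (hR n hn).1, (hR n hn).2⟩
  · rw [Finset.sum_union hdisj]
    linarith

private theorem chain_one {t M M' x : ℕ} (h : Chain t M) (h1 : M < x) (h2 : x < M')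
    (hs : (1 : ℚ) / M = 1 / x + 1 / M') : Chain (t + 1) M' := by
  have := chain_step h {x} (by simpa using ⟨h1, h2⟩) (h1.trans h2) (by simpa using hs)
  simpa using this

private theorem chain_start : Chain 3 15 := by
  refine ⟨{2, 3, 10}, by decide, by decide, ?_⟩
  norm_num

private theorem chain_A {t y : ℕ} (hy : 6 ≤ y) (h : Chain t (y - 1)) :
    Chain (t + 2) (y ^ 2 - 1) := by
  obtain ⟨y, rfl⟩ : ∃ z, y = z + 1 := ⟨y - 1, by omega⟩
  have e : (y + 1) ^ 2 - 1 = y * (y + 2) := by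
    rw [Nat.sub_eq_iff_eq_add (Nat.one_le_pow _ _ (by omega))]
    ring
  rw [e]
  rw [Nat.add_sub_cancel] at h
  have hy0 : 5 ≤ y := by omega
  have h1 : y < 2 * y := by omega
  have h2 : y < 2 * (y + 2) := by omega
  have h3 : 2 * (y + 2) < y * (y + 2) := Nat.mul_lt_mul_of_pos_right (by omega) (by omega)
  have h4 : 2 * y < y * (y + 2) := by nlinarith
  have := chain_step h {2 * y, 2 * (y + 2)} (M' := y * (y + 2)) (by
    intro x hx
    simp only [Finset.mem_insert, Finset.mem_singleton] at hx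
    rcases hx with rfl | rfl
    · exact ⟨h1, h4⟩
    · exact ⟨h2, h3⟩) (h1.trans h4) (by
    rw [Finset.sum_pair (by omega)]
    have hyq : (0 : ℚ) < y := by exact_mod_cast (by omega : 0 < y)
    push_cast
    field_simp
    ring)
  rwa [Finset.card_pair (by omega)] at this

private theorem chain_B0 {t y : ℕ} (hy : 3 ≤ y) (h : Chain t (y - 1)) :
    Chain (t + 1) (y * (y - 1)) := by
  obtain ⟨y, rfl⟩ : ∃ z, y = z + 1 := ⟨y - 1, by omega⟩
  rw [Nat.add_sub_cancel] at h ⊢
  apply chain_one h (x := y + 1) (by omega)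
  · nlinarith
  · have hyq : (0 : ℚ) < y := by exact_mod_cast (by omega : 0 < y)
    push_cast
    field_simp

private theorem chain_B {t C z : ℕ} (hC : 1 ≤ C) (hz : 4 ≤ z) (h : Chain t (2 * C * (z - 1))) :
    Chain (t + 1) (C * (z ^ 2 - 1)) := by
  obtain ⟨z, rfl⟩ : ∃ w, z = w + 1 := ⟨z - 1, by omega⟩
  rw [Nat.add_sub_cancel] at h
  have e : (z + 1) ^ 2 - 1 = z * (z + 2) := by
    rw [Nat.sub_eq_iff_eq_add (Nat.one_le_pow _ _ (by omega))]
    ring
  rw [e]
  apply chain_one h (x := 2 * C * (z + 2))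
  · apply Nat.mul_lt_mul_of_pos_left (by omega) (by omega)
  · calc 2 * C * (z + 2) = C * (2 * (z + 2)) := by ring
      _ < C * (z * (z + 2)) :=
        Nat.mul_lt_mul_of_pos_left (Nat.mul_lt_mul_of_pos_right (by omega) (by omega)) (by omega)
  · have hzq : (0 : ℚ) < z := by exact_mod_cast (by omega : 0 < z)
    have hCq : (0 : ℚ) < C := by exact_mod_cast hC
    push_cast
    field_simp

private theorem chain_C {t C z : ℕ} (hC : 1 ≤ C) (hz : 3 ≤ z) (h : Chain t (C * (z - 1))) :
    Chain (t + 1) (C * z * (z - 1)) := by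
  obtain ⟨z, rfl⟩ : ∃ w, z = w + 1 := ⟨z - 1, by omega⟩
  rw [Nat.add_sub_cancel] at h ⊢
  apply chain_one h (x := C * (z + 1))
  · apply Nat.mul_lt_mul_of_pos_left (by omega) (by omega)
  · calc C * (z + 1) = C * (z + 1) * 1 := by ring
      _ < C * (z + 1) * z := Nat.mul_lt_mul_of_pos_left (by omega) (by positivity)
  · have hzq : (0 : ℚ) < z := by exact_mod_cast (by omega : 0 < z)
    have hCq : (0 : ℚ) < C := by exact_mod_cast hC
    push_cast
    field_simp

private theorem chain_D_eq {A B : ℕ} (hA : 2 ≤ A) (hB : 1 ≤ B) :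
    (1 : ℚ) / ((A * B : ℕ) : ℚ) = 1 / ((A * B + B : ℕ) : ℚ) + 1 / ((A * B * (A + 1) : ℕ) : ℚ) := by
  have hAq : (0 : ℚ) < A := by exact_mod_cast (by omega : 0 < A)
  have hBq : (0 : ℚ) < B := by exact_mod_cast hB
  push_cast
  field_simp

private theorem chain_D {t A B : ℕ} (hA : 2 ≤ A) (hB : 1 ≤ B) (h : Chain t (A * B)) :
    Chain (t + 1) (A * B * (A + 1)) := by
  apply chain_one h (x := A * B + B)
  · omega
  · have : A * B * 2 ≤ A * B * A := Nat.mul_le_mul_left _ hA
    have h2 : B < A * B := by nlinarith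
    nlinarith
  · exact chain_D_eq hA hB

private theorem chain_iterA (i : ℕ) : Chain (3 + 2 * i) (16 ^ (2 ^ i) - 1) := by
  induction i with
  | zero => simpa using chain_start
  | succ i ih =>
    have h16 : 6 ≤ 16 ^ (2 ^ i) := by
      calc 6 ≤ 16 ^ 1 := by norm_num
        _ ≤ 16 ^ (2 ^ i) := Nat.pow_le_pow_right (by norm_num) Nat.one_le_two_pow
    have := chain_A h16 ih
    rw [← pow_mul, ← pow_succ] at this
    exact this

private theorem chain_iterB (i j : ℕ) (hj : j ≤ 2 ^ (i + 2)) :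
    Chain (4 + 2 * i + j) (2 ^ (2 ^ (i + 2) - j) * (16 ^ (2 ^ (i + j)) - 1)) := by
  induction j with
  | zero =>
    have h16 : 3 ≤ 16 ^ (2 ^ i) := by
      calc 3 ≤ 16 ^ 1 := by norm_num
        _ ≤ 16 ^ (2 ^ i) := Nat.pow_le_pow_right (by norm_num) Nat.one_le_two_pow
    have := chain_B0 h16 (chain_iterA i)
    convert this using 1
    · ring
    · simp only [Nat.sub_zero, add_zero]
      congr 1
      rw [show (16 : ℕ) = 2 ^ 4 by norm_num, ← pow_mul]
      congr 1
      rw [pow_add]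
      ring
  | succ j ih =>
    have ih' := ih (by omega)
    obtain ⟨r, hr⟩ : ∃ r, 2 ^ (i + 2) - j = r + 1 := ⟨2 ^ (i + 2) - j - 1, by omega⟩
    have hr' : 2 ^ (i + 2) - (j + 1) = r := by omega
    rw [hr, pow_succ, mul_comm (2 ^ r) 2] at ih'
    have h16 : 4 ≤ 16 ^ (2 ^ (i + j)) := by
      calc 4 ≤ 16 ^ 1 := by norm_num
        _ ≤ 16 ^ (2 ^ (i + j)) := Nat.pow_le_pow_right (by norm_num) Nat.one_le_two_pow
    have := chain_B Nat.one_le_two_pow h16 ih'
    rw [← pow_mul, ← pow_succ] at this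
    rw [hr']
    exact this

theorem divisors_le (i j m : ℕ) (hj : j ≤ 2 ^ (i + 2)) (hm : 1 ≤ m) (hm' : m ≤ 2 ^ (i + j)) :
    (16 ^ m + 1).divisors.card ≤ F (8 + 2 * i + j) + 1 := by
  classical
  have h1 := chain_iterB i j hj
  have h16 : 3 ≤ 16 ^ (2 ^ (i + j)) := by
    calc 3 ≤ 16 ^ 1 := by norm_num
      _ ≤ 16 ^ (2 ^ (i + j)) := Nat.pow_le_pow_right (by norm_num) Nat.one_le_two_pow
  have h2 := chain_C Nat.one_le_two_pow h16 h1
  set M0 := 2 ^ (2 ^ (i + 2) - j) * 16 ^ (2 ^ (i + j)) * (16 ^ (2 ^ (i + j)) - 1) with hM0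
  have hdvd : 16 ^ m ∣ M0 :=
    Dvd.dvd.mul_right (Dvd.dvd.mul_left (pow_dvd_pow 16 hm') _) _
  have hM0pos : 0 < M0 := by
    rw [hM0]
    apply Nat.mul_pos (by positivity)
    omega
  obtain ⟨B, hB⟩ := hdvd
  have hBpos : 1 ≤ B := by
    rcases Nat.eq_zero_or_pos B with h | h
    · rw [h, mul_zero] at hB
      omega
    · exact h
  have hA : 2 ≤ 16 ^ m := by
    calc 2 ≤ 16 ^ 1 := by norm_num
      _ ≤ 16 ^ m := Nat.pow_le_pow_right (by norm_num) hm
  rw [hB] at h2
  have h3 := chain_D hA hBpos h2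
  set M := 16 ^ m * B * (16 ^ m + 1) with hM
  have hMpos : 0 < M := by positivity
  obtain ⟨S, hS, hlt, hsum⟩ := h3
  have hsub : (16 ^ m + 1).divisors ⊆ M.divisors :=
    Nat.divisors_subset_of_dvd hMpos.ne' (Dvd.intro_left _ rfl)
  refine (Finset.card_le_card hsub).trans ?_
  have hone : 1 ∈ M.divisors := Nat.one_mem_divisors.mpr hMpos.ne'
  rw [← Finset.card_erase_add_one hone]
  apply Nat.add_le_add_right
  rw [← Set.ncard_coe_finset]
  have hmem : ∀ A ∈ (M.divisors.erase 1 : Set ℕ), 2 ≤ A ∧ ∃ B, M = A * B ∧ 1 ≤ B := by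
    intro A hA
    rw [Finset.mem_coe, Finset.mem_erase, Nat.mem_divisors] at hA
    obtain ⟨hA1, ⟨B, hB⟩, -⟩ := hA
    refine ⟨?_, B, hB, ?_⟩
    · rcases Nat.eq_zero_or_pos A with h | h
      · rw [h, zero_mul] at hB
        omega
      · omega
    · rcases Nat.eq_zero_or_pos B with h | h
      · rw [h, mul_zero] at hB
        omega
      · exact h
  apply Set.ncard_le_ncard_of_injOn (fun A => insert (M + M / A) (insert (M * (A + 1)) S)) _ _
    (sols_finite _ _)
  · intro A hA
    obtain ⟨hA2, B, hAB, hB1⟩ := hmem A hA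
    have hq : M / A = B := by
      rw [hAB]
      exact Nat.mul_div_cancel_left _ (by omega)
    have hBM : B < M := by rw [hAB]; nlinarith
    have hl1 : M + B < M * (A + 1) := by nlinarith
    have hn1 : M * (A + 1) ∉ S := fun h => by
      have := (hlt _ h).2
      nlinarith
    have hn2 : M + B ∉ insert (M * (A + 1)) S := by
      rw [Finset.mem_insert, not_or]
      refine ⟨hl1.ne, fun h => ?_⟩
      have := (hlt _ h).2
      omega
    simp only [hq]
    refine ⟨?_, ?_, ?_⟩
    · rw [Finset.card_insert_of_notMem hn2, Finset.card_insert_of_notMem hn1, hS]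
      ring
    · intro n hn
      rw [Finset.mem_insert, Finset.mem_insert] at hn
      rcases hn with rfl | rfl | hn
      · omega
      · positivity
      · exact (hlt n hn).1
    · rw [Finset.sum_insert hn2, Finset.sum_insert hn1]
      have h5 := chain_D_eq hA2 hB1
      rw [← hAB] at h5
      rw [← add_assoc, ← h5]
      linarith
  · intro A hA A' hA' heq
    obtain ⟨hA2, B, hAB, hB1⟩ := hmem A hA
    obtain ⟨hA2', B', hAB', hB1'⟩ := hmem A' hA'
    have hq' : M / A' = B' := by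
      rw [hAB']
      exact Nat.mul_div_cancel_left _ (by omega)
    have hBM : B' < M := by rw [hAB']; nlinarith
    have hin : M * (A + 1) ∈ insert (M + M / A') (insert (M * (A' + 1)) S) := by
      have h6 : (fun A => insert (M + M / A) (insert (M * (A + 1)) S)) A =
        (fun A => insert (M + M / A) (insert (M * (A + 1)) S)) A' := heq
      simp only at h6
      rw [← h6]
      exact Finset.mem_insert_of_mem (Finset.mem_insert_self _ _)
    rw [Finset.mem_insert, Finset.mem_insert, hq'] at hin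
    rcases hin with h | h | h
    · exfalso
      nlinarith
    · have := Nat.eq_of_mul_eq_mul_left hMpos h
      omega
    · have := (hlt _ h).2
      exfalso
      nlinarith

end Pool.Agent.Lib.MP_9dd88f_nt
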