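import Mathlib

/-!
# A block of primes
-/

open Filter

namespace Pool.Agent.Lib.MP_9dd88f_nt

private theorem block_theta (m n : ℕ) (h : m ≤ n) :
    Chebyshev.theta n ≤ Chebyshev.theta m +
      ((Finset.Ioc m n).filter Nat.Prime).card * Real.log n := by
  classical
  have hu : (Finset.Ioc 0 n).filter Nat.Prime =
      (Finset.Ioc 0 m).filter Nat.Prime ∪ (Finset.Ioc m n).filter Nat.Prime := by
    ext p
    simp only [Finset.mem_union, Finset.mem_filter, Finset.mem_Ioc]
    constructor
    · rintro ⟨⟨h1, h2⟩, h3⟩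
      rcases le_or_gt p m with h4 | h4
      · exact Or.inl ⟨⟨h1, h4⟩, h3⟩
      · exact Or.inr ⟨⟨h4, h2⟩, h3⟩
    · rintro (⟨⟨h1, h2⟩, h3⟩ | ⟨⟨h1, h2⟩, h3⟩)
      · exact ⟨⟨h1, h2.trans h⟩, h3⟩
      · exact ⟨⟨by omega, h2⟩, h3⟩
  have hd : Disjoint ((Finset.Ioc 0 m).filter Nat.Prime) ((Finset.Ioc m n).filter Nat.Prime) := by
    rw [Finset.disjoint_left]
    intro p hp hp'
    simp only [Finset.mem_filter, Finset.mem_Ioc] at hp hp'
    omega
  rw [Chebyshev.theta, Chebyshev.theta, Nat.floor_natCast, Nat.floor_natCast, hu,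
    Finset.sum_union hd]
  gcongr
  rw [← nsmul_eq_mul]
  apply Finset.sum_le_card_nsmul
  intro p hp
  simp only [Finset.mem_filter, Finset.mem_Ioc] at hp
  apply Real.log_le_log
  · exact_mod_cast hp.2.pos
  · exact_mod_cast hp.1.2

private theorem block_ev : ∀ᶠ y : ℝ in atTop,
    Real.log (y + 1) + 2 * √y * Real.log y ≤ (1 / 10) * y := by
  have h1 := (isLittleO_log_rpow_atTop (r := 1 / 2) (by norm_num)).bound
    (show (0 : ℝ) < 1 / 100 by norm_num)
  filter_upwards [h1, eventually_ge_atTop (100 : ℝ)] with y h1 h2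
  rw [← Real.sqrt_eq_rpow] at h1
  have h3 : 0 ≤ Real.log y := Real.log_nonneg (by linarith)
  rw [Real.norm_of_nonneg h3, Real.norm_of_nonneg (Real.sqrt_nonneg _)] at h1
  have h4 : √y * √y = y := Real.mul_self_sqrt (by linarith)
  have h5 : Real.log (y + 1) ≤ Real.log y + 1 / y := by
    have h6 : Real.log (y + 1) = Real.log y + Real.log (1 + 1 / y) := by
      rw [← Real.log_mul (by positivity) (by positivity)]
      congr 1
      field_simp
    rw [h6]
    have h7 : Real.log (1 + 1 / y) ≤ 1 / y := by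
      have := Real.log_le_sub_one_of_pos (show (0 : ℝ) < 1 + 1 / y by positivity)
      linarith
    linarith
  have h8 : 1 / y ≤ 1 / 100 := one_div_le_one_div_of_le (by norm_num) h2
  have h9 : 10 ≤ √y := by
    rw [show (10 : ℝ) = √100 by rw [show (100 : ℝ) = 10 ^ 2 by norm_num]; simp]
    exact Real.sqrt_le_sqrt h2
  have h10 : √y * Real.log y ≤ 1 / 100 * y := by nlinarith
  nlinarith

theorem exists_primes (δ : ℝ) (hδ : 0 < δ) : ∀ᶠ L : ℕ in atTop,
    ∃ P : Finset ℕ, (∀ p ∈ P, p.Prime ∧ p ≠ 2) ∧ ∑ p ∈ P, (1 : ℝ) / p ≤ 1 / 2 ∧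
      ∏ p ∈ P, p ≤ 2 ^ L ∧ (1 - δ) * Real.log 2 * L / Real.log L ≤ P.card := by
  classical
  have hcast : Tendsto (fun L : ℕ => (3 * L : ℝ)) atTop atTop :=
    (tendsto_natCast_atTop_atTop (R := ℝ)).const_mul_atTop (by norm_num)
  have e1 := hcast.eventually block_ev
  have e2 : ∀ᶠ L : ℕ in atTop, 4 / δ ≤ Real.log L :=
    (Real.tendsto_log_atTop.comp (tendsto_natCast_atTop_atTop (R := ℝ))).eventually_ge_atTop _
  have e3 : ∀ᶠ L : ℕ in atTop, 4 ≤ Real.log L :=
    (Real.tendsto_log_atTop.comp (tendsto_natCast_atTop_atTop (R := ℝ))).eventually_ge_atTop _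
  have e4 : ∀ᶠ L : ℕ in atTop, 2 * Real.log L ≤ L * (Real.log 2 * (δ / 2)) := by
    have h1 := (Real.isLittleO_log_id_atTop).bound
      (show (0 : ℝ) < Real.log 2 * (δ / 2) / 2 by
        have := Real.log_pos (show (1 : ℝ) < 2 by norm_num)
        positivity)
    filter_upwards [(tendsto_natCast_atTop_atTop (R := ℝ)).eventually h1, e3] with L h1 h3
    simp only [id] at h1
    rw [Real.norm_of_nonneg (by linarith), Real.norm_of_nonneg (by positivity)] at h1
    linarith
  filter_upwards [e1, e2, e3, e4, eventually_ge_atTop 10] with L e1 e2 e3 e4 hL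
  have hLr : (10 : ℝ) ≤ L := by exact_mod_cast hL
  have hlog2 : 0 < Real.log 2 := Real.log_pos (by norm_num)
  have hlog2' : (0.69 : ℝ) < Real.log 2 := by
    have := Real.log_two_gt_d9
    linarith
  have hlog3 : Real.log 3 ≤ 2 := by
    have := Real.log_le_sub_one_of_pos (show (0 : ℝ) < 3 by norm_num)
    linarith
  have hlog3' : 0 < Real.log 3 := Real.log_pos (by norm_num)
  have hlog3L : Real.log (3 * L) = Real.log 3 + Real.log L :=
    Real.log_mul (by norm_num) (by positivity)
  set Q := (Finset.Ioc (3 * L / 4) (3 * L)).filter Nat.Prime with hQ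
  set r := ⌊L * Real.log 2 / Real.log (3 * L)⌋₊ with hr
  have hlogpos : 0 < Real.log (3 * L) := by rw [hlog3L]; linarith
  have hrle : (r : ℝ) ≤ L * Real.log 2 / Real.log (3 * L) := Nat.floor_le (by positivity)
  have hrle' : (r : ℝ) * Real.log (3 * L) ≤ L * Real.log 2 := by
    rwa [le_div_iff₀ hlogpos] at hrle
  have hQcard : r ≤ Q.card := by
    have h1 := block_theta (3 * L / 4) (3 * L) (by omega)
    have h2 := Chebyshev.theta_ge (3 * L)
    have h3 := Chebyshev.theta_le_log4_mul_x (x := ((3 * L / 4 : ℕ) : ℝ)) (by positivity)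
    have h4 : ((3 * L / 4 : ℕ) : ℝ) ≤ 3 * L / 4 := by
      have := @Nat.cast_div_le ℝ _ _ _ (3 * L) 4
      push_cast at this
      exact this
    have h5 : Real.log 4 = 2 * Real.log 2 := by
      rw [show (4 : ℝ) = 2 ^ 2 by norm_num, Real.log_pow]
      norm_num
    push_cast at h1 h2
    rw [← hQ] at h1
    rw [h5] at h3
    have h6 : L * Real.log 2 ≤ Q.card * Real.log (3 * L) := by
      nlinarith
    have h7 : (r : ℝ) ≤ Q.card := by
      have h8 := hrle'.trans h6
      exact le_of_mul_le_mul_right h8 hlogpos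
    exact_mod_cast h7
  obtain ⟨P, hPQ, hPr⟩ := Finset.exists_subset_card_eq hQcard
  have hPm : ∀ p ∈ P, p.Prime ∧ 3 * L / 4 < p ∧ p ≤ 3 * L := by
    intro p hp
    have := hPQ hp
    rw [hQ, Finset.mem_filter, Finset.mem_Ioc] at this
    exact ⟨this.2, this.1⟩
  refine ⟨P, ?_, ?_, ?_, ?_⟩
  · intro p hp
    refine ⟨(hPm p hp).1, ?_⟩
    have := (hPm p hp).2.1
    omega
  · calc ∑ p ∈ P, (1 : ℝ) / p ≤ ∑ p ∈ P, (4 / (3 * L) : ℝ) := by
          apply Finset.sum_le_sum
          intro p hp
          have h1 : 3 * L < 4 * p := by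
            have := (hPm p hp).2.1
            omega
          have h2 : (3 * L : ℝ) < 4 * p := by exact_mod_cast h1
          have h3 : (0 : ℝ) < p := by exact_mod_cast (hPm p hp).1.pos
          rw [div_le_div_iff₀ h3 (by positivity)]
          linarith
      _ = r * (4 / (3 * L)) := by rw [Finset.sum_const, hPr, nsmul_eq_mul]
      _ ≤ 1 / 2 := by
          rw [← mul_div_assoc, div_le_div_iff₀ (by positivity) (by norm_num)]
          have h1 : (r : ℝ) * 4 ≤ r * Real.log (3 * L) := by
            apply mul_le_mul_of_nonneg_left _ (Nat.cast_nonneg _)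
            rw [hlog3L]
            linarith
          have h2 : Real.log 2 < 1 := by
            have := Real.log_two_lt_d9
            linarith
          nlinarith
  · have h1 : ∏ p ∈ P, p ≤ (3 * L) ^ r := by
      rw [← hPr, Finset.card_eq_sum_ones, ← Finset.prod_pow_eq_pow_sum]
      apply Finset.prod_le_prod'
      intro p hp
      simpa using (hPm p hp).2.2
    refine h1.trans ?_
    have h2 : ((3 * L : ℝ)) ^ r ≤ 2 ^ L := by
      have h3 : Real.log ((3 * L : ℝ) ^ r) ≤ Real.log (2 ^ L) := by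
        rw [Real.log_pow, Real.log_pow]
        exact hrle'
      exact (Real.log_le_log_iff (by positivity) (by positivity)).mp h3
    exact_mod_cast h2
  · rw [hPr]
    have h1 : L * Real.log 2 / Real.log (3 * L) - 1 < r := Nat.sub_one_lt_floor _
    refine le_trans ?_ h1.le
    have hx : 0 < Real.log L := by linarith
    rw [hlog3L, le_sub_iff_add_le, div_add_one hx.ne', div_le_div_iff₀ hx (by linarith)]
    have h2 : 2 ≤ δ * Real.log L / 2 := by
      rw [div_le_iff₀ hδ] at e2
      linarith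
    set x := Real.log L with hxdef
    have h3 : (1 - δ) * Real.log 3 ≤ δ * x / 2 := by
      rcases le_total 0 (1 - δ) with h | h
      · nlinarith
      · nlinarith
    -- goal: ((1 - δ) * log 2 * L + x) * (log 3 + x) ≤ L * log 2 * x
    have h4 : L * Real.log 2 * x - (1 - δ) * Real.log 2 * L * (Real.log 3 + x) =
      L * Real.log 2 * (δ * x - (1 - δ) * Real.log 3) := by ring
    have h5 : L * Real.log 2 * (δ * x / 2) ≤ L * Real.log 2 * (δ * x - (1 - δ) * Real.log 3) := by
      apply mul_le_mul_of_nonneg_left _ (by positivity)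
      linarith
    have h6 : x * (Real.log 3 + x) ≤ L * Real.log 2 * (δ * x / 2) := by
      have h7 : Real.log 3 + x ≤ 2 * x := by linarith
      have h8 : Real.log 3 + x ≤ L * (Real.log 2 * (δ / 2)) := h7.trans e4
      calc x * (Real.log 3 + x) ≤ x * (L * (Real.log 2 * (δ / 2))) :=
            mul_le_mul_of_nonneg_left h8 hx.le
        _ = L * Real.log 2 * (δ * x / 2) := by ring
    nlinarith

end Pool.Agent.Lib.MP_9dd88f_nt
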