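import Mathlib

/-!
# Many prime factors of `16 ^ m + 1`
-/

namespace Pool.Agent.Lib.MP_9dd88f_nt

private theorem prim_odd {T : Finset ℕ} (hT : ∀ p ∈ T, p.Prime ∧ p ≠ 2) :
    Odd (∏ p ∈ T, p) :=
  Finset.prod_induction _ Odd (fun _ _ => Odd.mul) odd_one
    (fun p hp => (hT p hp).1.odd_of_ne_two (hT p hp).2)

private theorem prim_not_dvd {l d : ℕ} (hl : l.Prime) (h : l ∣ 16 ^ d + 1) (hd : d ≠ 0) :
    l ≠ 2 ∧ ∀ e, ¬ l ∣ 16 ^ e := by
  have h2 : l ≠ 2 := by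
    rintro rfl
    have : Even (16 ^ d + 1) := (even_iff_two_dvd).mpr h
    have h3 : Even (16 ^ d) := (Nat.even_pow.mpr ⟨by decide, hd⟩)
    rw [Nat.even_add_one] at this
    exact this h3
  refine ⟨h2, fun e he => ?_⟩
  have h3 : l ∣ 16 := hl.dvd_of_dvd_pow he
  have h4 : l ∣ 2 ^ 4 := by norm_num; exact h3
  exact h2 ((Nat.prime_dvd_prime_iff_eq hl Nat.prime_two).mp (hl.dvd_of_dvd_pow h4))

/-- The primitive prime factor. -/
private theorem prim_exists {T : Finset ℕ} (hT : ∀ p ∈ T, p.Prime ∧ p ≠ 2)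
    (hs : ∑ p ∈ T, (1 : ℝ) / p ≤ 1 / 2) :
    ∃ l : ℕ, l.Prime ∧ l ∣ 16 ^ (∏ p ∈ T, p) + 1 ∧
      ∀ p ∈ T, ¬ l ∣ 16 ^ ((∏ p ∈ T, p) / p) + 1 := by
  classical
  set d := ∏ p ∈ T, p with hd
  by_contra hcon
  push Not at hcon
  have hd0 : 0 < d := Finset.prod_pos fun p hp => (hT p hp).1.pos
  have hdodd : Odd d := prim_odd hT
  have hpd : ∀ p ∈ T, p ∣ d := fun p hp => Finset.dvd_prod_of_mem _ hp
  have hane : ∀ e, 16 ^ e + 1 ≠ 0 := fun e => Nat.succ_ne_zero _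
  have hprodne : (∏ p ∈ T, (16 ^ (d / p) + 1)) ≠ 0 :=
    Finset.prod_ne_zero_iff.mpr fun p _ => hane _
  have hdvd : 16 ^ d + 1 ∣ d * ∏ p ∈ T, (16 ^ (d / p) + 1) := by
    rw [← Nat.factorization_prime_le_iff_dvd (hane d) (Nat.mul_ne_zero hd0.ne' hprodne)]
    intro l hl
    have : Fact l.Prime := ⟨hl⟩
    rw [Nat.factorization_def _ hl, Nat.factorization_def _ hl]
    by_cases hld : l ∣ 16 ^ d + 1
    · obtain ⟨p, hp, hlp⟩ := hcon l hl hld
      have h2 := prim_not_dvd hl hld hd0.ne'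
      have hlodd : Odd l := hl.odd_of_ne_two h2.1
      have hpodd : Odd p := (hT p hp).1.odd_of_ne_two (hT p hp).2
      have h3 := padicValNat.pow_add_pow (p := l) hlodd (x := 16 ^ (d / p)) (y := 1) hlp
        (h2.2 _) hpodd
      rw [one_pow, ← pow_mul, Nat.div_mul_cancel (hpd p hp)] at h3
      rw [h3, padicValNat.mul hd0.ne' hprodne, add_comm]
      apply add_le_add
      · rw [← padicValNat_dvd_iff_le hd0.ne']
        exact pow_padicValNat_dvd.trans (hpd p hp)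
      · rw [← padicValNat_dvd_iff_le hprodne]
        exact pow_padicValNat_dvd.trans
          (Finset.dvd_prod_of_mem (fun p => 16 ^ (d / p) + 1) hp)
    · rw [padicValNat.eq_zero_of_not_dvd hld]
      exact Nat.zero_le _
  have hle := Nat.le_of_dvd (Nat.pos_of_ne_zero (Nat.mul_ne_zero hd0.ne' hprodne)) hdvd
  have hcard : 2 ^ T.card ≤ d := by
    rw [hd, Finset.card_eq_sum_ones, ← Finset.prod_pow_eq_pow_sum]
    apply Finset.prod_le_prod'
    intro p hp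
    simpa using (hT p hp).1.two_le
  have hsum : 2 * ∑ p ∈ T, d / p ≤ d := by
    have h1 : ((∑ p ∈ T, d / p : ℕ) : ℝ) = d * ∑ p ∈ T, (1 : ℝ) / p := by
      push_cast
      rw [Finset.mul_sum]
      apply Finset.sum_congr rfl
      intro p hp
      rw [Nat.cast_div (hpd p hp) (by exact_mod_cast (hT p hp).1.ne_zero)]
      ring
    have h2 : (2 * (∑ p ∈ T, d / p : ℕ) : ℝ) ≤ d := by
      rw [h1]
      have hdr : (0 : ℝ) < d := by exact_mod_cast hd0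
      nlinarith
    exact_mod_cast h2
  have hprod : ∏ p ∈ T, (16 ^ (d / p) + 1) ≤ 2 ^ T.card * 16 ^ (∑ p ∈ T, d / p) := by
    calc ∏ p ∈ T, (16 ^ (d / p) + 1) ≤ ∏ p ∈ T, (2 * 16 ^ (d / p)) := by
          apply Finset.prod_le_prod'
          intro p _
          have := Nat.one_le_pow (d / p) 16 (by norm_num)
          omega
      _ = 2 ^ T.card * 16 ^ (∑ p ∈ T, d / p) := by
          rw [Finset.prod_mul_distrib, Finset.prod_const, Finset.prod_pow_eq_pow_sum]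
  have h4 : 16 ^ (∑ p ∈ T, d / p) ≤ 4 ^ d := by
    calc 16 ^ (∑ p ∈ T, d / p) = 4 ^ (2 * ∑ p ∈ T, d / p) := by
          rw [pow_mul]
          norm_num
      _ ≤ 4 ^ d := Nat.pow_le_pow_right (by norm_num) hsum
  have h5 : d < 2 ^ d := Nat.lt_two_pow_self
  have h6 : 16 ^ d + 1 ≤ d * (d * 4 ^ d) :=
    hle.trans (Nat.mul_le_mul_left _ (hprod.trans (Nat.mul_le_mul hcard h4)))
  have h7 : d * (d * 4 ^ d) ≤ 2 ^ d * (2 ^ d * 4 ^ d) :=
    Nat.mul_le_mul h5.le (Nat.mul_le_mul_right _ h5.le)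
  have h8 : 2 ^ d * (2 ^ d * 4 ^ d) = 16 ^ d := by
    rw [← mul_assoc, ← mul_pow, ← mul_pow]
    norm_num
  omega

private theorem prim_inj_aux {T T' : Finset ℕ} (hT : ∀ p ∈ T, p.Prime ∧ p ≠ 2)
    (hT' : ∀ p ∈ T', p.Prime ∧ p ≠ 2) {l : ℕ} (hl : l.Prime)
    (h1 : l ∣ 16 ^ (∏ p ∈ T, p) + 1) (h2 : l ∣ 16 ^ (∏ p ∈ T', p) + 1) {p : ℕ} (hp : p ∈ T)
    (hp' : p ∉ T') : l ∣ 16 ^ ((∏ p ∈ T, p) / p) + 1 := by
  classical
  have : Fact l.Prime := ⟨hl⟩
  set d := ∏ p ∈ T, p with hd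
  set d' := ∏ p ∈ T', p with hd'
  have hd0 : 0 < d := Finset.prod_pos fun p hp => (hT p hp).1.pos
  have hpd : p ∣ d := Finset.dvd_prod_of_mem _ hp
  have hpd' : ¬ p ∣ d' := by
    intro h
    rw [hd', (Prime.dvd_finsetProd_iff (hT p hp).1.prime _)] at h
    obtain ⟨q, hq, hpq⟩ := h
    rw [(Nat.prime_dvd_prime_iff_eq (hT p hp).1 (hT' q hq).1)] at hpq
    exact hp' (hpq ▸ hq)
  have hl2 := (prim_not_dvd hl h1 hd0.ne').1
  have hw : ∀ e : ℕ, l ∣ 16 ^ e + 1 ↔ (16 : ZMod l) ^ e = -1 := by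
    intro e
    rw [← ZMod.natCast_eq_zero_iff, eq_neg_iff_add_eq_zero]
    push_cast
    rfl
  have hne : (1 : ZMod l) ≠ -1 := by
    intro h
    have h3 : ((2 : ℕ) : ZMod l) = 0 := by
      push_cast
      linear_combination h
    rw [ZMod.natCast_eq_zero_iff] at h3
    exact hl2 ((Nat.prime_dvd_prime_iff_eq hl Nat.prime_two).mp h3)
  rw [hw] at h1 h2 ⊢
  set w : ZMod l := 16 with hwdef
  set g := Nat.gcd d d' with hg
  have ho1 : orderOf w ∣ 2 * d := orderOf_dvd_of_pow_eq_one (by rw [mul_comm, pow_mul, h1]; norm_num)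
  have ho2 : orderOf w ∣ 2 * d' :=
    orderOf_dvd_of_pow_eq_one (by rw [mul_comm, pow_mul, h2]; norm_num)
  have ho3 : orderOf w ∣ 2 * g := by
    rw [hg, ← Nat.gcd_mul_left]
    exact Nat.dvd_gcd ho1 ho2
  have hg2 : (w ^ g) ^ 2 = 1 := by
    rw [← pow_mul, mul_comm]
    exact orderOf_dvd_iff_pow_eq_one.mp ho3
  have hgd : g ∣ d := Nat.gcd_dvd_left _ _
  have hgd' : g ∣ d' := Nat.gcd_dvd_right _ _
  have hdodd : Odd d := prim_odd hT
  rcases sq_eq_one_iff.mp hg2 with h | h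
  · exfalso
    apply hne
    rw [← h1]
    obtain ⟨e, he⟩ := hgd
    rw [he, pow_mul, h, one_pow]
  · have hgp : g ∣ d / p := by
      have hcop : Nat.Coprime g p := by
        rw [Nat.coprime_comm, (hT p hp).1.coprime_iff_not_dvd]
        exact fun h' => hpd' (h'.trans hgd')
      apply hcop.dvd_of_dvd_mul_right
      rw [Nat.div_mul_cancel hpd]
      exact hgd
    obtain ⟨e, he⟩ := hgp
    have hodd : Odd (d / p) := hdodd.of_dvd_nat (Nat.div_dvd_of_dvd hpd)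
    have heodd : Odd e := hodd.of_dvd_nat ⟨g, by rw [he, mul_comm]⟩
    rw [he, pow_mul, h, heodd.neg_one_pow]

/-- If `m` is the product of a set `P` of odd primes with `∑ 1/p ≤ 1/2`, then `16 ^ m + 1` has at
least `2 ^ |P|` prime factors. -/
theorem two_pow_le_primeFactors (P : Finset ℕ) (hP : ∀ p ∈ P, p.Prime ∧ p ≠ 2)
    (hs : ∑ p ∈ P, (1 : ℝ) / p ≤ 1 / 2) :
    2 ^ P.card ≤ (16 ^ (∏ p ∈ P, p) + 1).primeFactors.card := by
  classical
  have hsub : ∀ T ∈ P.powerset, ∀ p ∈ T, p.Prime ∧ p ≠ 2 := fun T hT p hp =>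
    hP p (Finset.mem_powerset.mp hT hp)
  have hex : ∀ T ∈ P.powerset, ∃ l : ℕ, l.Prime ∧ l ∣ 16 ^ (∏ p ∈ T, p) + 1 ∧
      ∀ p ∈ T, ¬ l ∣ 16 ^ ((∏ p ∈ T, p) / p) + 1 := by
    intro T hT
    refine prim_exists (hsub T hT) (le_trans ?_ hs)
    apply Finset.sum_le_sum_of_subset_of_nonneg (Finset.mem_powerset.mp hT)
    intro p _ _
    positivity
  choose! l hl1 hl2 hl3 using hex
  rw [← Finset.card_powerset]
  apply Finset.card_le_card_of_injOn l
  · intro T hT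
    have hT' : T ∈ P.powerset := hT
    rw [Finset.mem_coe, Nat.mem_primeFactors]
    refine ⟨hl1 T hT', (hl2 T hT').trans ?_, Nat.succ_ne_zero _⟩
    have hdvd : (∏ p ∈ T, p) ∣ ∏ p ∈ P, p :=
      Finset.prod_dvd_prod_of_subset _ _ _ (Finset.mem_powerset.mp hT')
    obtain ⟨e, he⟩ := hdvd
    have hodd : Odd e := (prim_odd hP).of_dvd_nat ⟨∏ p ∈ T, p, by rw [he, mul_comm]⟩
    rw [he, pow_mul]
    simpa using hodd.nat_add_dvd_pow_add_pow (16 ^ (∏ p ∈ T, p)) 1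
  · intro T hT T' hT' heq
    have h1 : T ∈ P.powerset := hT
    have h2 : T' ∈ P.powerset := hT'
    by_contra hne
    have hcase : (∃ p ∈ T, p ∉ T') ∨ ∃ p ∈ T', p ∉ T := by
      by_contra hcon
      push Not at hcon
      exact hne (Finset.Subset.antisymm hcon.1 hcon.2)
    rcases hcase with ⟨p, hp, hp'⟩ | ⟨p, hp, hp'⟩
    · exact hl3 T h1 p hp (prim_inj_aux (hsub T h1) (hsub T' h2) (hl1 T h1) (hl2 T h1)
        (heq ▸ hl2 T' h2) hp hp')
    · exact hl3 T' h2 p hp (prim_inj_aux (hsub T' h2) (hsub T h1) (hl1 T' h2) (hl2 T' h2)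
        (heq ▸ hl2 T h1) hp hp')

end Pool.Agent.Lib.MP_9dd88f_nt
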