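import Mathlib
import Pool.Agent.Lib.MP_9dd88f_nt.Chain
import Pool.Agent.Lib.MP_9dd88f_nt.Primitive
import Pool.Agent.Lib.MP_9dd88f_nt.PrimeBlock

/-!
# The lower bound
-/

open Filter

namespace Pool.Agent.Lib.MP_9dd88f_nt

private theorem two_pow_card_primeFactors_le {n : ℕ} (hn : n ≠ 0) :
    2 ^ n.primeFactors.card ≤ n.divisors.card := by
  rw [Nat.card_divisors hn, Finset.card_eq_sum_ones, ← Finset.prod_pow_eq_pow_sum]
  apply Finset.prod_le_prod'
  intro p hp
  have h1 : n.factorization p ≠ 0 := by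
    rw [← Finsupp.mem_support_iff, Nat.support_factorization]
    exact hp
  simp only [pow_one]
  omega

private theorem exp_exp_le {r : ℕ} (hr : 2 ≤ r) {y : ℝ} (hy : y ≤ r * Real.log 2 - 1) :
    Real.exp (Real.exp y) ≤ ((2 ^ 2 ^ r : ℕ) : ℝ) - 1 := by
  have hlog2 : (0.69 : ℝ) < Real.log 2 := by
    have := Real.log_two_gt_d9
    linarith
  have hlog2' : Real.log 2 < (0.7 : ℝ) := by
    have := Real.log_two_lt_d9
    linarith
  have he : (2.7 : ℝ) < Real.exp 1 := by
    have := Real.exp_one_gt_d9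
    linarith
  have h1 : Real.exp y ≤ 2 ^ r / 2.7 := by
    calc Real.exp y ≤ Real.exp (r * Real.log 2 - 1) := Real.exp_le_exp.mpr hy
      _ = 2 ^ r / Real.exp 1 := by
          rw [Real.exp_sub, mul_comm, Real.exp_mul, Real.exp_log (by norm_num), Real.rpow_natCast]
      _ ≤ 2 ^ r / 2.7 := by
          apply div_le_div_of_nonneg_left (by positivity) (by norm_num) he.le
  have h2 : (4 : ℝ) ≤ 2 ^ r := by
    calc (4 : ℝ) = 2 ^ 2 := by norm_num
      _ ≤ 2 ^ r := pow_le_pow_right₀ (by norm_num) hr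
  have h3 : Real.exp y ≤ 2 ^ r * Real.log 2 - Real.log 2 := by
    refine h1.trans ?_
    rw [div_le_iff₀ (by norm_num)]
    nlinarith
  have h4 : Real.exp (Real.exp y) ≤ 2 ^ (2 ^ r) / 2 := by
    calc Real.exp (Real.exp y) ≤ Real.exp (2 ^ r * Real.log 2 - Real.log 2) :=
          Real.exp_le_exp.mpr h3
      _ = 2 ^ (2 ^ r) / 2 := by
          rw [Real.exp_sub, Real.exp_log (by norm_num), mul_comm, Real.exp_mul,
            Real.exp_log (by norm_num)]
          congr 1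
          have h5 : ((2 : ℝ) ^ r) = ((2 ^ r : ℕ) : ℝ) := by push_cast; rfl
          rw [h5, Real.rpow_natCast]
  have h6 : (2 : ℝ) ≤ 2 ^ (2 ^ r) := by
    calc (2 : ℝ) = 2 ^ 1 := by norm_num
      _ ≤ 2 ^ (2 ^ r) := pow_le_pow_right₀ (by norm_num) Nat.one_le_two_pow
  push_cast
  linarith

theorem lower (ε : ℝ) (hε : 0 < ε) : ∀ᶠ k : ℕ in atTop,
    Real.exp (Real.exp ((Real.log 2 ^ 2 - ε) * (k / Real.log k))) ≤ F k := by
  set δ : ℝ := min (ε / 4) (1 / 2) with hδ
  have hδ0 : 0 < δ := lt_min (by positivity) (by norm_num)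
  have hδ1 : δ ≤ ε / 4 := min_le_left _ _
  have hδ2 : δ ≤ 1 / 2 := min_le_right _ _
  obtain ⟨L0, hL0⟩ := (exists_primes δ hδ0).exists_forall_of_atTop
  have hcast := tendsto_natCast_atTop_atTop (R := ℝ)
  have e1 : ∀ᶠ k : ℕ in atTop, 4 ≤ Real.log k :=
    (Real.tendsto_log_atTop.comp hcast).eventually_ge_atTop _
  have e2 : ∀ c : ℝ, 0 < c → ∀ᶠ k : ℕ in atTop, Real.log k ≤ c * k := by
    intro c hc
    have h1 := (Real.isLittleO_log_id_atTop).bound hc
    filter_upwards [hcast.eventually h1, e1] with k h1 h3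
    simp only [id] at h1
    rwa [Real.norm_of_nonneg (by linarith), Real.norm_of_nonneg (by positivity)] at h1
  filter_upwards [e1, e2 (δ / 8) (by positivity), e2 (ε / 2) (by positivity),
    e2 (1 / 100) (by norm_num), eventually_ge_atTop (2 * L0),
    hcast.eventually_ge_atTop (36 / δ), eventually_ge_atTop 1000] with k e1 e2 e3 e4 e5 e6 e7
  have hk0 : (1000 : ℝ) ≤ k := by exact_mod_cast e7
  have hlog2 : (0.69 : ℝ) < Real.log 2 := by
    have := Real.log_two_gt_d9
    linarith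
  have hlog2' : Real.log 2 < (0.7 : ℝ) := by
    have := Real.log_two_lt_d9
    linarith
  set i := Nat.log 2 k + 1 with hi
  have hik : k ≤ 2 ^ i := (Nat.lt_pow_succ_log_self (by norm_num) k).le
  have hile : (i : ℝ) ≤ 1 + 2 * Real.log k := by
    have h1 : 2 ^ Nat.log 2 k ≤ k := Nat.pow_log_le_self 2 (by omega)
    have h2 : ((2 : ℝ)) ^ Nat.log 2 k ≤ k := by exact_mod_cast h1
    have h3 : Real.log ((2 : ℝ) ^ Nat.log 2 k) ≤ Real.log k :=
      Real.log_le_log (by positivity) h2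
    rw [Real.log_pow] at h3
    rw [hi]
    push_cast
    nlinarith
  have hi4 : 8 + 2 * i ≤ k := by
    have h1 : (8 + 2 * i : ℝ) ≤ k := by linarith
    exact_mod_cast h1
  set j := k - 8 - 2 * i with hj
  set L := i + j with hL
  have hLk : L + 8 + i = k := by omega
  have hLr : (L : ℝ) = k - 8 - i := by
    rw [← hLk]
    push_cast
    ring
  have hLge : (1 - δ) * k ≤ L := by
    have h1 : 9 ≤ δ / 4 * k := by
      rw [div_le_iff₀ hδ0] at e6
      linarith
    rw [hLr]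
    nlinarith
  have hLk2 : L ≤ k := by omega
  have hL0L : L0 ≤ L := by
    have h1 : (k : ℝ) / 2 ≤ L := by nlinarith
    have h2 : ((2 * L0 : ℕ) : ℝ) ≤ k := by exact_mod_cast e5
    push_cast at h2
    have h3 : (L0 : ℝ) ≤ L := by linarith
    exact_mod_cast h3
  obtain ⟨P, hP1, hP2, hP3, hP4⟩ := hL0 L hL0L
  have hPpos : 1 ≤ ∏ p ∈ P, p := Finset.prod_pos fun p hp => (hP1 p hp).1.pos
  have h1 := divisors_le i j (∏ p ∈ P, p) (by
    calc j ≤ k := by omega
      _ ≤ 2 ^ i := hik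
      _ ≤ 2 ^ (i + 2) := Nat.pow_le_pow_right (by norm_num) (by omega)) hPpos hP3
  have h2 := two_pow_le_primeFactors P hP1 hP2
  have h3 := two_pow_card_primeFactors_le (n := 16 ^ (∏ p ∈ P, p) + 1) (Nat.succ_ne_zero _)
  have h4 : 2 ^ (2 ^ P.card) ≤ F k + 1 := by
    calc 2 ^ (2 ^ P.card) ≤ 2 ^ (16 ^ (∏ p ∈ P, p) + 1).primeFactors.card :=
          Nat.pow_le_pow_right (by norm_num) h2
      _ ≤ (16 ^ (∏ p ∈ P, p) + 1).divisors.card := h3
      _ ≤ F (8 + 2 * i + j) + 1 := h1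
      _ = F k + 1 := by
          congr 2
          omega
  have h5 : ((2 ^ (2 ^ P.card) : ℕ) : ℝ) - 1 ≤ F k := by
    have : ((2 ^ (2 ^ P.card) : ℕ) : ℝ) ≤ ((F k + 1 : ℕ) : ℝ) := by exact_mod_cast h4
    push_cast at this ⊢
    linarith
  refine le_trans ?_ h5
  have hkpos : (0 : ℝ) < k := by linarith
  have hlogk : 0 < Real.log k := by linarith
  have hLpos : (1 : ℝ) < L := by nlinarith
  have hlogL : 0 < Real.log L := Real.log_pos hLpos
  have hlogLk : Real.log L ≤ Real.log k := by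
    apply Real.log_le_log (by linarith)
    exact_mod_cast hLk2
  have h6 : (1 - δ) * (k / Real.log k) ≤ L / Real.log L := by
    rw [← mul_div_assoc]
    exact div_le_div₀ (by positivity) hLge hlogL hlogLk
  have h7 : (1 - δ) * Real.log 2 * ((1 - δ) * (k / Real.log k)) ≤ P.card := by
    refine le_trans ?_ hP4
    rw [mul_div_assoc]
    exact mul_le_mul_of_nonneg_left h6 (mul_nonneg (by linarith) (by linarith))
  set x := (k : ℝ) / Real.log k with hx
  have hx100 : 100 ≤ x := by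
    rw [hx, le_div_iff₀ hlogk]
    linarith
  have hxε : 1 ≤ ε / 2 * x := by
    rw [hx, ← mul_div_assoc, le_div_iff₀ hlogk]
    linarith
  apply exp_exp_le
  · have h8 : (2 : ℝ) ≤ P.card := by
      refine le_trans ?_ h7
      have h9 : (1 / 2 : ℝ) ≤ 1 - δ := by linarith
      have h10 : (1 / 2 : ℝ) * x ≤ (1 - δ) * x := mul_le_mul_of_nonneg_right h9 (by linarith)
      have h11 : (1 / 2 : ℝ) * 0.69 ≤ (1 - δ) * Real.log 2 :=
        mul_le_mul h9 hlog2.le (by norm_num) (by linarith)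
      calc (2 : ℝ) ≤ (1 / 2 * 0.69) * (1 / 2 * 100) := by norm_num
        _ ≤ (1 / 2 * 0.69) * (1 / 2 * x) := by linarith
        _ ≤ ((1 - δ) * Real.log 2) * ((1 - δ) * x) :=
          mul_le_mul h11 h10 (by linarith) (mul_nonneg (by linarith) (by linarith))
    exact_mod_cast h8
  · have h8 : (1 - δ) * Real.log 2 * ((1 - δ) * x) * Real.log 2 ≤ P.card * Real.log 2 :=
      mul_le_mul_of_nonneg_right h7 (by linarith)
    have h9 : (1 - δ) * Real.log 2 * ((1 - δ) * x) * Real.log 2 =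
      (1 - δ) ^ 2 * Real.log 2 ^ 2 * x := by ring
    have h10 : Real.log 2 ^ 2 - ε / 2 ≤ (1 - δ) ^ 2 * Real.log 2 ^ 2 := by
      have h11 : Real.log 2 ^ 2 ≤ 1 := pow_le_one₀ (by linarith) (by linarith)
      have h12 : 0 ≤ Real.log 2 ^ 2 := by positivity
      have h13 : 1 - 2 * δ ≤ (1 - δ) ^ 2 := by
        have : 0 ≤ δ ^ 2 := sq_nonneg δ
        linarith
      have h14 : (1 - 2 * δ) * Real.log 2 ^ 2 ≤ (1 - δ) ^ 2 * Real.log 2 ^ 2 :=
        mul_le_mul_of_nonneg_right h13 h12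
      have h16 : δ * Real.log 2 ^ 2 ≤ δ * 1 := mul_le_mul_of_nonneg_left h11 hδ0.le
      linarith
    have h15 : (Real.log 2 ^ 2 - ε / 2) * x ≤ (1 - δ) ^ 2 * Real.log 2 ^ 2 * x :=
      mul_le_mul_of_nonneg_right h10 (by linarith)
    rw [h9] at h8
    linarith

end Pool.Agent.Lib.MP_9dd88f_nt
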